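import Pool.Agent.DQ2.Stmts

/-! Row EXT of squad DQ2. -/

set_option autoImplicit false

namespace Pool.Agent.DQ2.H71

theorem ext : EXT := by
  intro K L _ _ _ _ σ τ
  letI : Algebra L (AlgebraicClosure K) := σ.toRingHom.toAlgebra
  haveI : IsScalarTower K L (AlgebraicClosure K) :=
    IsScalarTower.of_algebraMap_eq (fun x => (σ.commutes x).symm)
  haveI : Algebra.IsAlgebraic L (AlgebraicClosure K) := Algebra.IsAlgebraic.tower_top (K := K) L
  obtain ⟨φ, hφ⟩ := IsAlgClosed.surjective_domRestrict_of_isAlgebraic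
    (K := K) (L := L) (E := AlgebraicClosure K) (M := AlgebraicClosure K) τ
  refine ⟨AlgEquiv.ofBijective φ (Algebra.IsAlgebraic.algHom_bijective φ), ?_⟩
  intro z
  have h := DFunLike.congr_fun hφ z
  exact h

end Pool.Agent.DQ2.H71
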